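import Pool.Agent.Helper48.T5b.EvSplit
import Pool.Agent.Helper37.T5b.OneEvent

/-!
# T5b (MP_12a1af): the pairs across a SPLIT, from `Near` and `Split`
-/

set_option autoImplicit false

namespace Pool.Agent.Helper33.T5b

open Finset Pool.Agent.Helper27.T4 Pool.Agent.Helper37.T5b
open Pool.Agent.Helper5.ET (bb era)
open Pool.Agent.Helper30.T5b (RT NL ez RT_succ QT)
open Pool.Agent.Helper84.T5b Pool.Agent.Helper57.T5
open Pool.Agent.Helper48.T5b (SplitP SplitP_of NL_eq_Jn)

variable {m k : ℕ}

/-- the event of a near pair across a SPLIT -/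
theorem splitEv_of_near (hm : 0 < m) {l' l : ℕ} (hll : l' ≤ l) (h0 : bb 0 ≤ mL m k l')
    (hk : kt m k ≤ era (mL m k l')) (hN : Near m k l' l) (hS : Split m k l' l) :
    SplitEv m k (mL m k l') (mL m k l) := by
  have h1 : sv m k (mL m k l') + 1 = sv m k (mL m k l) := hS.1
  have h2 : dv m k (mL m k l') - k = dv m k (mL m k l) - k := hS.2
  rcases event_of_near hm hll h0 hk hN with a | a | a | a | a | a | a
  · have := a.sv_eq
    omega
  · have e1 := a.sv'
    have e2 := a.sv
    omega
  · have e1 := a.sv'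
    have e2 := a.sv
    omega
  · have e1 := a.sv'
    have e2 := a.sv
    omega
  · have e1 := a.sv'
    have e2 := a.sv
    omega
  · exact a
  · have e1 := a.sv'
    have e2 := a.sv
    omega

/-- **the data of a near pair across a SPLIT** -/
theorem splitP_of_near (hm : 0 < m) {l' l : ℕ} (hll : l' ≤ l) (h0 : bb 0 ≤ mL m k l')
    (hk : kt m k ≤ era (mL m k l')) (hN : Near m k l' l) (hS : Split m k l' l) :
    SplitP m k (sL m k l') l' l := by
  have h1 := SplitP_of hm hll (splitEv_of_near hm hll h0 hk hN hS)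
  have h2 := h1.s'
  rw [← h2] at h1
  exact h1

/-- the same for late states -/
theorem exists_splitP (hm : 0 < m) (k : ℕ) : ∃ l0 : ℕ, ∀ l l' : ℕ, l0 ≤ l' → l' ≤ l →
    Near m k l' l → Split m k l' l → SplitP m k (sL m k l') l' l := by
  obtain ⟨l0, h0⟩ := Pool.Agent.Helper30.T5b.exists_late (k := k) hm 0 0
  refine ⟨l0, fun l l' hl' hll hN hS => ?_⟩
  obtain ⟨_, a2, a3, _, _⟩ := h0 l' hl'
  exact splitP_of_near hm hll a2 a3 hN hS

end Pool.Agent.Helper33.T5b
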