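import Pool.Agent.Helper33.T5b.SplitOf
import Pool.Agent.Helper57.T5b.BotStmt

/-!
# T5b (MP_12a1af): all fronts common, across a SPLIT, the counting form of the last windows
-/

set_option autoImplicit false

namespace Pool.Agent.Helper33.T5b

open Finset Pool.Agent.Helper27.T4 Pool.Agent.Helper37.T5b
open Pool.Agent.Helper5.ET (bb era)
open Pool.Agent.Helper30.T5b (RT NL BP RT_pos ez)
open Pool.Agent.Helper84.T5b Pool.Agent.Helper57.T5 Pool.Agent.Helper42.T5.Pr
open Pool.Agent.Helper22.HW (cN)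
open Pool.Agent.Helper44.T5b (Zw dJ uJ IJ DJ clJ CJ CS NN_add mem_Zw)
open Pool.Agent.Helper44.T5 (Theta cln cln_inj)
open Pool.Agent.Helper57.T5b
open Pool.Agent.Helper48.T5b (SplitP NL_eq_Jn)

/-- **the modulus of the classes is small** -/
theorem exists_DJ_le_S {m : ℕ} (hm : 0 < m) (k : ℕ) : ∃ l0 : ℕ, ∀ l l' : ℕ, l0 ≤ l' → l' ≤ l →
    SplitP m k (sL m k l') l' l → ez m (bL m k l) l' = ez m (bL m k l) l →
    DJ m k l l' (rL m k l) ≤ AQ m (bL m k l) := by
  obtain ⟨l1, C, h1⟩ := Pool.Agent.Helper30.T5b.exists_NL_le (k := k) hm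
  obtain ⟨l2, h2⟩ := Pool.Agent.Helper27.T5b.exists_bL hm k C
  refine ⟨l1 + l2, fun l l' hl' hll P he => ?_⟩
  obtain ⟨hb', -⟩ := h2 l' (by omega)
  obtain ⟨hb, hC⟩ := h2 l (by omega)
  have hrL := Pool.Agent.Helper48.T5b.sL_sub_rL hm k l
  have hef : ef m k l (rL m k l) = ez m (bL m k l) l := by
    unfold ef
    rw [hrL]
  have hle : l' ≤ ef m k l (rL m k l) := by
    rw [hef]
    exact hll.trans (Pool.Agent.Helper30.T5b.lt_ez hm _ l).le
  have h3 := Jn_eq_mul_DJ (m := m) (k := k) (t := rL m k l) hle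
  have h4 := Pool.Agent.Helper27.T5b.FF_mul_RT (k := k) hm hb (rL m k l)
  have h5 : Jn m k (sL m k l) l' * RT m k (sL m k l) = NL m k l' := by
    have := NL_eq_Jn ((P.win l' le_rfl (P.le.trans (Nat.le_add_right _ _))).cpl_succ hm le_rfl)
    rw [P.s1, this]
    ring
  have h6 := Pool.Agent.Helper30.T5b.ez_sub_le hm (bL m k l) l'
  have h7 := Pool.Agent.Helper27.T5b.exists_SS_ge hm C _ hC
  have h8 := SS_ge hm (bL m k l)
  have h9 : (2 : ℕ) ^ 20 ≤ 2 ^ 250 := Nat.pow_le_pow_right (by norm_num) (by norm_num)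
  have h11 := h1 l' (ef m k l (rL m k l)) (SS m (bL m k l) / 4) (by omega) hle (by
    rw [hef, ← he]
    have h10 : l' ≤ ez m (bL m k l) l' := (Pool.Agent.Helper30.T5b.lt_ez hm _ l').le
    generalize ez m (bL m k l) l' = E at *
    generalize SS m (bL m k l) = S at *
    omega)
  rw [← h4, ← h5, h3] at h11
  have h12 : 0 < Jn m k (sL m k l) l' * RT m k (sL m k l) :=
    Nat.mul_pos (Pool.Agent.Helper27.T5b.Jn_pos _ _ _ _) (RT_pos _ _ _)
  refine Nat.le_of_mul_le_mul_left ?_ h12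
  calc Jn m k (sL m k l) l' * RT m k (sL m k l) * DJ m k l l' (rL m k l)
      = Jn m k (sL m k l) l' * DJ m k l l' (rL m k l) * RT m k (sL m k l) := by ring
    _ ≤ _ := h11

/-- **all fronts common, two states across a SPLIT**: the counting form of the random windows -/
theorem bot_two_core_S {m : ℕ} (hm : 0 < m) (k : ℕ) : ∃ l0 : ℕ, ∀ l l' : ℕ, l0 ≤ l' → l' < l →
    SplitP m k (sL m k l') l' l → bL m k l' = bL m k l →
    ez m (bL m k l) l' = ez m (bL m k l) l →
    ∀ K : Finset Key, BKb m k l K → BKb m k l' K →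
    PrLe (Mk m k) K (fun w => ∃ θ ∈ Theta (pJ k (sL m k l)) (dJ m k l l' (rL m k l)),
      ∃ γ N Qi : ℕ, LL (QQ m k (sL m k l)) (rL m k l) * Qi ≡ 1 [MOD DJ m k l l' (rL m k l)] ∧
      ∃ κ₂ < 4, 465 * SS m (bL m k l) <
        cN (Zw m k l (rL m k l) w) (Zw m k l' (rL m k l') w) (IJ m k l l')
          (Jn m k (sL m k l) l' * LL (QQ m k (sL m k l)) (rL m k l)) (DJ m k l l' (rL m k l))
          (fun i => Qi * (clJ m k l l' (rL m k l) θ i + γ)) κ₂
          (Jn m k (sL m k l) l' * LL (QQ m k (sL m k l)) (rL m k l) * N))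
      (2 * Real.exp (-(SS m (bL m k l) : ℝ))) := by
  classical
  obtain ⟨l1, h1⟩ := bot_win hm k 16 (by norm_num)
  obtain ⟨l2, h2⟩ := exists_DJ_le_S hm k
  obtain ⟨t3, h3⟩ := exists_AQ_le hm k
  obtain ⟨l3, h3'⟩ := Pool.Agent.Helper27.T5b.exists_bL hm k t3
  refine ⟨l1 + l2 + l3, fun l l' hl' hll P hb he K hK hK' => ?_⟩
  obtain ⟨hbb, hbt⟩ := h3' l (by omega)
  have hDA := h2 l l' (by omega) hll.le P he
  have hAR := h3 _ hbt
  have hRA := RT_le_AQ hm k (bL m k l)
  have hA48 := AQ_ge hm (bL m k l)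
  have hLL0 : 0 < LL (QQ m k (sL m k l)) (rL m k l) := Pool.Agent.Helper27.T5b.LLQ_pos _ _ _ _
  have hJ0 : 0 < Jn m k (sL m k l) l' := Pool.Agent.Helper27.T5b.Jn_pos _ _ _ _
  obtain ⟨q, hq⟩ := Pool.Agent.Helper44.T5b.Jn_dvd m k (sL m k l) hll.le
  have hq0 : 0 < q := by
    rcases Nat.eq_zero_or_pos q with h | h
    · have : 0 < Jn m k (sL m k l) l := Pool.Agent.Helper27.T5b.Jn_pos _ _ _ _
      rw [hq, h, mul_zero] at this
      omega
    · exact h
  have hI := IJ_sq hll.le hq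
  have hrL := Pool.Agent.Helper48.T5b.sL_sub_rL hm k l
  have hlt : l ≤ ef m k l (rL m k l) := by
    unfold ef
    exact (Pool.Agent.Helper30.T5b.lt_ez hm _ l).le
  have hqD : q ≤ DJ m k l l' (rL m k l) := by
    refine Nat.le_of_mul_le_mul_left ?_ hJ0
    rw [← hq, ← Jn_eq_mul_DJ (hll.le.trans hlt)]
    exact Nat.le_of_dvd (Pool.Agent.Helper27.T5b.FF_pos _ _ _ _)
      (Pool.Agent.Helper44.T5b.Jn_dvd m k (sL m k l) hlt)
  have hUl : Un m k l' = Jn m k (sL m k l) l' * LL (QQ m k (sL m k l)) (rL m k l) := by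
    rw [P.Un_lower hm, P.rL_succ, P.s1]
  set M := Jn m k (sL m k l) l' * LL (QQ m k (sL m k l)) (rL m k l) with hM
  set A := AQ m (bL m k l) with hA
  set D := DJ m k l l' (rL m k l) with hDdef
  set s := sL m k l with hsdef
  set r := rL m k l with hrdef
  have hM0 : 0 < M := Nat.mul_pos hJ0 hLL0
  have hU : Un m k l = M * q := by
    have : Un m k l = Jn m k s l * LL (QQ m k s) r := rfl
    rw [this, hq, hM]
    ring
  have e1 : ∀ w : Key → ℕ, Zw m k l r w = (Vw m k l w).image (fun v => M * (q * v)) := by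
    intro w
    rw [hrdef, Zw_last]
    congr 1
    funext v
    rw [hU, mul_assoc]
  have e2 : ∀ w : Key → ℕ, Zw m k l' (rL m k l') w = (Vw m k l' w).image (fun v => M * v) := by
    intro w
    rw [Zw_last, hUl]
  have hD0 : 0 < D := DJ_pos _ _ _ _ _
  have hqA : q ≤ A := hqD.trans hDA
  have hA1 : 1 ≤ A := le_trans (by norm_num) hA48
  -- the contexts
  set J : Finset ((JF → ℕ × ℕ) × (ℕ × ℕ) × (ℕ × ℕ)) :=
    (Theta (pJ k s) (dJ m k l l' r) ×ˢ (((range D ×ˢ range D).filter
      (fun g => LL (QQ m k s) r * g.2 ≡ 1 [MOD D])) ×ˢ (range (A ^ 9) ×ˢ range 4))) with hJ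
  have hbot := h1 l l' (by omega) hll hb K hK hK' (q := q) (D := D) (I := IJ m k l l') (M := M)
    hM0 hq0 hD0 hDA (hqA.trans ((Nat.le_self_pow (by norm_num) A).trans hAR)) (by
      have h4 : ((IJ m k l l' : ℕ) : ℝ) ≤ Real.sqrt q := by
        refine Real.le_sqrt_of_sq_le ?_
        exact_mod_cast hI
      linarith)
    J (fun x i => x.2.1.2 * (clJ m k l l' r x.1 i + x.2.1.1)) (fun x => x.2.2.2)
    (fun x => x.2.2.1) (κ₀ := 1) (c := 14) ?_ ?_
  · refine PrLe_mono (fun w _ hw => ?_) le_rfl hbot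
    obtain ⟨θ, hθ, γ, N, Qi, hQi, κ₂, hκ, hlt2⟩ := hw
    set w' := ext K w with hw'
    have hN : N < A ^ 9 := by
      by_contra hcon
      push Not at hcon
      have hz : cN (Zw m k l r w') (Zw m k l' (rL m k l') w') (IJ m k l l') M D
          (fun i => Qi * (clJ m k l l' r θ i + γ)) κ₂ (M * N) = 0 := by
        refine cN_eq_zero (B := M * (A * (16 * A ^ 4))) ?_ ?_ hD0 ?_
        · intro u hu
          rw [e1, mem_image] at hu
          obtain ⟨v, hv, rfl⟩ := hu
          have hv2 := (show v < 16 * RT m k (bL m k l) by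
            unfold Vw Pool.Agent.Helper50.T5.VW at hv
            rw [mem_filter, mem_Ico] at hv
            exact hv.1.2)
          exact Nat.mul_le_mul_left _ (Nat.mul_le_mul hqA
            (hv2.le.trans (Nat.mul_le_mul_left _ hRA)))
        · intro u hu
          rw [e2, mem_image] at hu
          obtain ⟨v, hv, rfl⟩ := hu
          have hv2 := (show v < 16 * RT m k (bL m k l') by
            unfold Vw Pool.Agent.Helper50.T5.VW at hv
            rw [mem_filter, mem_Ico] at hv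
            exact hv.1.2)
          rw [hb] at hv2
          refine Nat.mul_le_mul_left _ ?_
          calc v ≤ 16 * A ^ 4 := hv2.le.trans (Nat.mul_le_mul_left _ hRA)
            _ ≤ A * (16 * A ^ 4) := Nat.le_mul_of_pos_left _ hA1
        · have h5 : D + κ₂ * D ≤ 4 * A := by
            have : κ₂ * D ≤ 3 * D := Nat.mul_le_mul_right _ (by omega)
            omega
          have h6 : 2 * (A * (16 * A ^ 4)) + 4 * A < A ^ 9 := num_nine hA48
          calc 2 * (M * (A * (16 * A ^ 4))) + M * (D + κ₂ * D)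
              ≤ 2 * (M * (A * (16 * A ^ 4))) + M * (4 * A) :=
                Nat.add_le_add_left (Nat.mul_le_mul_left _ h5) _
            _ = M * (2 * (A * (16 * A ^ 4)) + 4 * A) := by ring
            _ < M * A ^ 9 := Nat.mul_lt_mul_of_pos_left h6 hM0
            _ ≤ M * N := Nat.mul_le_mul_left _ hcon
      rw [hz] at hlt2
      omega
    refine ⟨(θ, (γ % D, Qi % D), (N, κ₂)), ?_, ?_⟩
    · rw [hJ, mem_product, mem_product, mem_filter, mem_product, mem_product]
      refine ⟨hθ, ⟨⟨mem_range.2 (Nat.mod_lt _ hD0), mem_range.2 (Nat.mod_lt _ hD0)⟩, ?_⟩,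
        mem_range.2 hN, mem_range.2 hκ⟩
      exact ((Nat.mod_modEq Qi D).mul_left _).trans hQi
    · refine lt_of_eq_of_lt (by ring) (lt_of_lt_of_eq hlt2 ?_)
      rw [e1, e2]
      unfold cN
      refine congrArg Finset.card (filter_congr fun t _ => ?_)
      have h7 : (Qi % D * (clJ m k l l' r θ t.1 + γ % D)) % D =
          (Qi * (clJ m k l l' r θ t.1 + γ)) % D :=
        (Nat.mod_modEq Qi D).mul ((Nat.mod_modEq γ D).add_left _)
      simp only [h7]
  · intro x hx y
    rw [hJ, mem_product, mem_product, mem_filter] at hx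
    exact class_inj hll.le hlt hx.2.1.2 hx.1 y
  · rw [hJ, card_product, card_product, card_product, card_range, card_range]
    have c1 := Pool.Agent.Helper44.T5.card_Theta_le (pJ k s) (dJ m k l l' r)
    have c2 : ((range D ×ˢ range D).filter
      (fun g => LL (QQ m k s) r * g.2 ≡ 1 [MOD D])).card ≤ D * D := by
      refine (card_filter_le _ _).trans ?_
      rw [card_product, card_range]
    have c3 : NN (pJ k s) (dJ m k l l' r) = D := rfl
    rw [c3] at c1
    have c4 : 4 ≤ A := le_trans (by norm_num) hA48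
    calc _ ≤ (D * D) * ((D * D) * (A ^ 9 * 4)) := by gcongr
      _ ≤ (A * A) * ((A * A) * (A ^ 9 * A)) := by gcongr
      _ = A ^ 14 := by ring

end Pool.Agent.Helper33.T5b
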