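import Pool.Agent.Helper33.T5b.BotCoreS

/-!
# T5b (MP_12a1af): pairs of states across a SPLIT all of whose fronts are common
-/

set_option autoImplicit false

namespace Pool.Agent.Helper33.T5b

open Finset Pool.Agent.Helper27.T4 Pool.Agent.Helper37.T5b
open Pool.Agent.Helper5.ET (bb era)
open Pool.Agent.Helper30.T5b (RT NL BP RT_pos ez pz)
open Pool.Agent.Helper84.T5b Pool.Agent.Helper57.T5 Pool.Agent.Helper42.T5.Pr
open Pool.Agent.Helper22.HW (cN)
open Pool.Agent.Helper44.T5b (Zw dJ uJ IJ DJ clJ CJ CS NN_add mem_Zw)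
open Pool.Agent.Helper44.T5 (Theta cln cln_inj)
open Pool.Agent.Helper57.T5b
open Pool.Agent.Helper48.T5b (SplitP NL_eq_Jn)

/-- the reduction of a pair across a SPLIT with all fronts common to the last windows -/
def NearRSB (m k : ℕ) : Prop := ∃ CR K0 : ℕ, ∀ l l' : ℕ, K0 ≤ l' → l' ≤ l → Near m k l' l →
    Split m k l' l → ez m (bL m k l) l' = ez m (bL m k l) l → ∀ (w : Key → ℕ) (R : ℕ),
    (∀ θ ∈ Theta (pJ k (sL m k l)) (dJ m k l l' (rL m k l)), ∀ γ N Qi : ℕ,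
      LL (QQ m k (sL m k l)) (rL m k l) * Qi ≡ 1 [MOD DJ m k l l' (rL m k l)] → ∀ κ₂ < 4,
      cN (Zw m k l (rL m k l) w) (Zw m k l' (rL m k l') w) (IJ m k l l')
        (Jn m k (sL m k l) l' * LL (QQ m k (sL m k l)) (rL m k l)) (DJ m k l l' (rL m k l))
        (fun i => Qi * (clJ m k l l' (rL m k l) θ i + γ)) κ₂
        (Jn m k (sL m k l) l' * LL (QQ m k (sL m k l)) (rL m k l) * N) ≤ R) →
    ∀ n, Rp m k l l' w n ≤ CR * R

/-- **all fronts common across a SPLIT**: bound for the representations -/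
theorem botS_rp {m : ℕ} (hm : 0 < m) (k : ℕ) (hN : NearRSB m k) : ∃ CR l0 : ℕ, ∀ l l' : ℕ,
    l0 ≤ l' → l' ≤ l → Near m k l' l → Split m k l' l →
    ez m (bL m k l) l' = ez m (bL m k l) l →
    ∀ K : Finset Key, BKb m k l K → BKb m k l' K →
    PrLe (Mk m k) K (fun w => ∃ n, CR * (465 * SS m (bL m k l)) < Rp m k l l' w n)
      (2 * Real.exp (-(SS m (bL m k l) : ℝ))) := by
  classical
  obtain ⟨l1, h1⟩ := bot_two_core_S hm k
  obtain ⟨l2, h2⟩ := exists_splitP hm k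
  obtain ⟨CR, l3, h3⟩ := hN
  refine ⟨CR, l1 + l2 + l3, fun l l' hl' hll hn hs he K hK hK' => ?_⟩
  have h0 : l' < l := by
    rcases Nat.eq_or_lt_of_le hll with h | h
    · have := hs.1
      rw [h] at this
      omega
    · exact h
  refine PrLe_mono (fun r _ hw => ?_) le_rfl
    (h1 l l' (by omega) h0 (h2 l l' (by omega) hll hn hs) hs.2 he K hK hK')
  obtain ⟨n, hn'⟩ := hw
  by_contra hcon
  simp only [not_exists, not_and, not_lt] at hcon
  refine absurd (h3 l l' (by omega) hll hn hs he (ext K r) (465 * SS m (bL m k l)) ?_ n)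
    (not_le.2 hn')
  intro θ hθ γ N Qi hQi κ₂ hκ
  exact hcon θ hθ γ N Qi hQi κ₂ hκ

/-- **CaseBotS** from the label block -/
theorem blk_botS_of (hN : ∀ m, 2 ≤ m → NearRSB m (m ^ 2)) : Blk CaseBotS RpC := by
  refine ⟨1, 2, fun m hm => ?_⟩
  have hm0 : 0 < m := by omega
  obtain ⟨CR, l1, h1⟩ := botS_rp hm0 (m ^ 2) (hN m hm)
  obtain ⟨l2, h2⟩ := Pool.Agent.Helper27.T5b.exists_bL hm0 (m ^ 2) 0
  refine pairOK_of_last hm (C := ((CR * 465 : ℕ) : ℝ)) (m' := 2) (Nat.cast_nonneg _)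
    (by norm_num) (l0 := l1 + l2) ?_
  intro l l' hl' hll hP K hK hK'
  obtain ⟨hn, hs, ⟨-, -, he⟩, -⟩ := hP
  have hb1 := (h2 l (by omega)).1
  have hb2 := (h2 l' (by omega)).1
  refine PrLe_mono (fun r _ hw => ?_) le_rfl (h1 l l' (by omega) hll hn hs he K
    (BKb_of hm0 hb1 hK) (BKb_of hm0 hb2 hK'))
  obtain ⟨c, ⟨n, rfl⟩, hlt⟩ := hw
  refine ⟨n, ?_⟩
  have h3 : ((CR * (465 * SS m (bL m (m ^ 2) l)) : ℕ) : ℝ) <
      (Rp m (m ^ 2) l l' (ext K r) n : ℝ) := by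
    refine lt_of_eq_of_lt ?_ hlt
    push_cast
    ring
  exact_mod_cast h3

end Pool.Agent.Helper33.T5b
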