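import Pool.Agent.Helper33.T5b.BotS
import Pool.Agent.Helper44.T5b.NearRSB

/-!
# T5b (MP_12a1af): the block `botS`, closed
-/

set_option autoImplicit false

namespace Pool.Agent.Helper33.T5b

open Pool.Agent.Helper84.T5b

/-- **CaseBotS** -/
theorem blk_botS : Blk CaseBotS RpC :=
  blk_botS_of (fun m hm => Pool.Agent.Helper44.T5b.nearRSB m (m ^ 2) hm)

end Pool.Agent.Helper33.T5b
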