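import Pool.Agent.Helper33.T5b.SplitOf
import Pool.Agent.Helper44.T5b.NearR

/-!
# T5b (MP_12a1af): the number of outer keys of the lower state of a pair across a SPLIT
-/

set_option autoImplicit false

namespace Pool.Agent.Helper33.T5b

open Finset Pool.Agent.Helper27.T4 Pool.Agent.Helper37.T5b
open Pool.Agent.Helper5.ET (bb era)
open Pool.Agent.Helper84.T5b Pool.Agent.Helper57.T5
open Pool.Agent.Helper48.T5b (SplitP)
open Pool.Agent.Helper44.T5b (XJ_eq c0_eq c0G_cast_low XJG_spec quot_lt)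
open Pool.Agent.Helper44.T5 (pairs_mod)

variable {m k : ℕ}

theorem maskJ_empty (x : JF → ℕ) : maskJ ∅ x = 0 := by
  funext g
  unfold maskJ
  simp

/-- the outer key of an un-keyed state is the buffer coordinate -/
theorem okey_unkeyed {l' : ℕ} (hun : ¬ keyed m k (mL m k l')) (x : JF → ℕ) :
    okey m k l' 0 x = fun g => if g = Sum.inr 0 then x (Sum.inr 0) else 0 := by
  unfold okey okeyF
  rw [if_pos rfl, if_neg hun]
  funext g
  unfold maskJ
  by_cases hg : g = Sum.inr 0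
  · rw [if_pos hg, if_pos (by rw [hg]; exact mem_singleton_self _), hg]
  · rw [if_neg hg, if_neg (by rw [mem_singleton]; exact hg)]

/-- the lower state of a near pair across a SPLIT is un-keyed -/
theorem exists_unkeyed (hm : 0 < m) (k : ℕ) : ∃ l0 : ℕ, ∀ l l' : ℕ, l0 ≤ l' → l' ≤ l →
    Near m k l' l → Split m k l' l → ¬ keyed m k (mL m k l') := by
  obtain ⟨l0, h0⟩ := Pool.Agent.Helper30.T5b.exists_late (k := k) hm 0 0
  refine ⟨l0, fun l l' hl' hll hN hS => ?_⟩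
  obtain ⟨_, a2, a3, _, _⟩ := h0 l' hl'
  exact (splitEv_of_near hm hll a2 a3 hN hS).keyed'

open Classical in
/-- **the outer keys of the lower state**: at most `2 * 1000038` values for every target -/
theorem okey_card {s l' l : ℕ} (hm : 0 < m) (h : SplitP m k s l' l)
    (hun : ¬ keyed m k (mL m k l')) (w : Key → ℕ) (n : ℕ) :
    (((XJ m k l ×ˢ XJ m k l').filter (fun q => c0 m k l w q.1 + c0 m k l' w q.2 ≡ n
      [MOD Jn m k (s + 1) l'])).image (fun q => okey m k l' 0 q.2)).card ≤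
      2 * (1000039 - 1) := by
  set F := (XJ m k l ×ˢ XJ m k l').filter (fun q => c0 m k l w q.1 + c0 m k l' w q.2 ≡ n
      [MOD Jn m k (s + 1) l']) with hF
  set S : Finset (ℕ × ℕ) := F.image (fun q => (q.1 (Sum.inr 0), q.2 (Sum.inr 0))) with hS
  set b := aJ m k (s + 1) l' (Sum.inr 0) with hb
  have hp : (1000039 : ℕ).Prime := pJ_prime k (s + 1) (Sum.inr 0)
  have h1 : F.image (fun q => okey m k l' 0 q.2) =
      S.image (fun z => fun g => if g = Sum.inr 0 then z.2 else 0) := by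
    rw [hS, image_image]
    refine image_congr ?_
    intro q _
    exact okey_unkeyed hun q.2
  rw [h1]
  refine card_image_le.trans ?_
  have key := pairs_mod hp (by norm_num) b
    (((n : ℕ) : ZMod (1000039 ^ b)) - ((w (Key.J l (Sum.inr 0) 0) : ℕ) : ZMod (1000039 ^ b)) -
      ((w (Key.J l' (Sum.inr 0) 0) : ℕ) : ZMod (1000039 ^ b))) {0} S ?_
  · rw [card_singleton, mul_one] at key
    exact key
  intro z hz
  rw [hS, mem_image] at hz
  obtain ⟨q, hq, rfl⟩ := hz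
  rw [hF, mem_filter, mem_product] at hq
  obtain ⟨⟨hx, hx'⟩, hmod⟩ := hq
  have g1 := XJG_spec (m := m) (k := k) (l := l) hx (Sum.inr 0)
  have g2 := XJG_spec (m := m) (k := k) (l := l') hx' (Sum.inr 0)
  have hs1 := h.s1
  have hs' := h.s'
  have hle' : b ≤ aJ m k (sL m k l') (ef m k l' 0) (Sum.inr 0) :=
    Pool.Agent.Helper44.T5b.aJ_mono m k (sL m k l') (Sum.inr 0)
      (Pool.Agent.Helper48.T5b.lt_ef hm l' 0).le
  have hle : b ≤ aJ m k (sL m k l) (ef m k l 0) (Sum.inr 0) :=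
    Pool.Agent.Helper44.T5b.aJ_mono m k (sL m k l) (Sum.inr 0)
      (h.le.trans (Pool.Agent.Helper48.T5b.lt_ef hm l 0).le)
  have hab : aJ m k (s + 1) l (Sum.inr 0) = b :=
    h.ct_l hm (f := Sum.inr none) (by simp)
  have e1 : ((c0 m k l w q.1 : ℕ) : ZMod (1000039 ^ b)) = Lg 1000039 b (q.1 (Sum.inr 0)) +
      ((w (Key.J l (Sum.inr 0) 0) : ℕ) : ZMod (1000039 ^ b)) := by
    have := c0G_cast_low m k (sL m k l) (ef m k l 0) l w q.1 (Sum.inr 0) hle g1.2.1
    rw [← c0_eq, show preJ m k l (Sum.inr 0) = ∅ from rfl, maskJ_empty] at this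
    exact this
  have e2 : ((c0 m k l' w q.2 : ℕ) : ZMod (1000039 ^ b)) = Lg 1000039 b (q.2 (Sum.inr 0)) +
      ((w (Key.J l' (Sum.inr 0) 0) : ℕ) : ZMod (1000039 ^ b)) := by
    have := c0G_cast_low m k (sL m k l') (ef m k l' 0) l' w q.2 (Sum.inr 0) hle' g2.2.1
    rw [← c0_eq, show preJ m k l' (Sum.inr 0) = ∅ from rfl, maskJ_empty] at this
    exact this
  have hdvd : 1000039 ^ b ∣ Jn m k (s + 1) l' := pow_dvd_NN (pJ k (s + 1)) (aJ m k (s + 1) l')
    (Sum.inr 0)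
  have e3 : ((c0 m k l w q.1 : ℕ) : ZMod (1000039 ^ b)) + ((c0 m k l' w q.2 : ℕ) :
      ZMod (1000039 ^ b)) = ((n : ℕ) : ZMod (1000039 ^ b)) := by
    rw [← Nat.cast_add]
    exact (ZMod.natCast_eq_natCast_iff _ _ _).2 (hmod.of_dvd hdvd)
  have g1' : (aJ m k (s + 1) l (Sum.inr 0) = 0 ∧ q.1 (Sum.inr 0) = 1) ∨
      (q.1 (Sum.inr 0)) ^ 2 < 1000039 ^ aJ m k (s + 1) l (Sum.inr 0) := g1.2.2
  have g2' : (b = 0 ∧ q.2 (Sum.inr 0) = 1) ∨ (q.2 (Sum.inr 0)) ^ 2 < 1000039 ^ b := g2.2.2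
  rw [hab] at g1'
  refine ⟨g1.1, g2.1, g1.2.1, g2.2.1, ?_, ?_⟩
  · have h3 := quot_lt (b := b) hp.one_lt le_rfl g1' g2'
    rw [Nat.sub_self, Nat.zero_div, pow_zero] at h3
    rw [mem_singleton]
    exact Nat.lt_one_iff.1 h3
  · simp only
    rw [← e3, e1, e2]
    ring

theorem le_CJ (k s : ℕ) : 2 * (1000039 - 1) ≤ Pool.Agent.Helper44.T5b.CJ k s := by
  unfold Pool.Agent.Helper44.T5b.CJ
  refine Finset.single_le_prod' (f := fun i => 2 * (pJ k s i - 1))
    (fun i _ => ?_) (Finset.mem_univ (Sum.inr 0 : JF))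
  have := (pJ_prime k s i).two_le
  show 1 ≤ 2 * (pJ k s i - 1)
  omega

open Classical in
/-- the same with the constant `CJ` -/
theorem okey_card_CJ {l' l : ℕ} (hm : 0 < m) (h : SplitP m k (sL m k l') l' l)
    (hkey : ¬ keyed m k (mL m k l')) (w : Key → ℕ) (n : ℕ) :
    (((XJ m k l ×ˢ XJ m k l').filter (fun q => c0 m k l w q.1 + c0 m k l' w q.2 ≡ n
      [MOD Jn m k (sL m k l) l'])).image (fun q => okey m k l' 0 q.2)).card ≤
      Pool.Agent.Helper44.T5b.CJ k (sL m k l) := by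
  have h1 := okey_card hm h hkey w n
  rw [← h.s1] at h1
  exact h1.trans (le_CJ k _)

end Pool.Agent.Helper33.T5b
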